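import Pool.Agent.helper69.GA.Alg

/-!
# Abelian groups: subgroups with cyclic quotient
-/

set_option autoImplicit false

namespace Helper69GA

theorem dominates_of_comm {Γ : Type} [CommGroup Γ] [Finite Γ] :
    Dominates (fun H : {H : Subgroup Γ // IsCyclic (Γ ⧸ H)} => (H : Subgroup Γ)) ⊥ := by
  intro V _ _ hS hV
  obtain ⟨v, hv0, _⟩ := hV
  have hmax : (Module.annihilator (MonoidAlgebra ℝ Γ) V).IsMaximal :=
    IsSimpleModule.annihilator_isMaximal
  let _ : Field (MonoidAlgebra ℝ Γ ⧸ Module.annihilator (MonoidAlgebra ℝ Γ) V) :=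
    Ideal.Quotient.field _
  let f : Γ →* (MonoidAlgebra ℝ Γ ⧸ Module.annihilator (MonoidAlgebra ℝ Γ) V) :=
    (Ideal.Quotient.mk (Module.annihilator (MonoidAlgebra ℝ Γ) V)).toMonoidHom.comp
      (MonoidAlgebra.of ℝ Γ)
  have hcyc : IsCyclic (Γ ⧸ f.ker) := by
    refine isCyclic_of_injective_ringHom
      (QuotientGroup.lift f.ker f fun x hx => hx) ?_
    intro x y hxy
    obtain ⟨x, rfl⟩ := QuotientGroup.mk_surjective x
    obtain ⟨y, rfl⟩ := QuotientGroup.mk_surjective y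
    have h1 : f x = f y := hxy
    rw [QuotientGroup.eq]
    show f (x⁻¹ * y) = 1
    rw [map_mul, ← h1, ← map_mul, inv_mul_cancel, map_one]
  refine ⟨⟨f.ker, hcyc⟩, v, hv0, fun h hh => ?_⟩
  have h1 : f h = 1 := hh
  have h2 : Ideal.Quotient.mk (Module.annihilator (MonoidAlgebra ℝ Γ) V)
      (MonoidAlgebra.of ℝ Γ h) = Ideal.Quotient.mk _ 1 := by
    rw [map_one]
    exact h1
  rw [Ideal.Quotient.eq, Module.mem_annihilator] at h2
  have h3 := h2 v
  rw [sub_smul, one_smul, sub_eq_zero] at h3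
  exact h3

end Helper69GA
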