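import Pool.Agent.helper69.GA.Defs

/-!
# Fixed vectors of subgroups and two-sided ideals of the group ring
-/

set_option autoImplicit false

open scoped BigOperators

namespace Helper69GA

/-- the sum of the elements of a subgroup in the group ring -/
noncomputable def nrm {Γ : Type} [Group Γ] [Finite Γ] (H : Subgroup Γ) : MonoidAlgebra ℝ Γ :=
  letI := Fintype.ofFinite H
  ∑ h : H, MonoidAlgebra.of ℝ Γ h

theorem of_mul_nrm {Γ : Type} [Group Γ] [Finite Γ] (H : Subgroup Γ) {g : Γ} (hg : g ∈ H) :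
    MonoidAlgebra.of ℝ Γ g * nrm H = nrm H := by
  let _ := Fintype.ofFinite H
  show MonoidAlgebra.of ℝ Γ g * ∑ h : H, MonoidAlgebra.of ℝ Γ h = ∑ h : H, MonoidAlgebra.of ℝ Γ h
  rw [Finset.mul_sum]
  refine (Fintype.sum_equiv (Equiv.mulLeft (⟨g, hg⟩ : H)) _ _ fun h => ?_)
  rw [← map_mul]
  rfl

theorem nrm_smul_of_fixes {Γ V : Type} [Group Γ] [Finite Γ] [AddCommGroup V]
    [Module (MonoidAlgebra ℝ Γ) V] (H : Subgroup Γ) (v : V) (hv : Fixes H v) :
    nrm H • v = Nat.card H • v := by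
  let _ := Fintype.ofFinite H
  show (∑ h : H, MonoidAlgebra.of ℝ Γ h) • v = _
  rw [Finset.sum_smul]
  have h1 : ∀ h ∈ (Finset.univ : Finset H), MonoidAlgebra.of ℝ Γ (h : Γ) • v = v :=
    fun h _ => hv h h.2
  rw [Finset.sum_congr rfl h1, Finset.sum_const, Finset.card_univ, Nat.card_eq_fintype_card]

theorem eq_zero_of_nsmul {Γ V : Type} [Group Γ] [AddCommGroup V] [Module (MonoidAlgebra ℝ Γ) V]
    {n : ℕ} (hn : n ≠ 0) (v : V) (h : n • v = 0) : v = 0 := by
  have h1 : ((n : ℕ) : MonoidAlgebra ℝ Γ) • v = 0 := by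
    rw [Nat.cast_smul_eq_nsmul]
    exact h
  have h2 : algebraMap ℝ (MonoidAlgebra ℝ Γ) ((n : ℝ)⁻¹) * ((n : ℕ) : MonoidAlgebra ℝ Γ) = 1 := by
    rw [← map_natCast (algebraMap ℝ (MonoidAlgebra ℝ Γ)) n, ← map_mul,
      inv_mul_cancel₀ (by exact_mod_cast hn), map_one]
  rw [← one_smul (MonoidAlgebra ℝ Γ) v, ← h2, mul_smul, h1, smul_zero]

/-- the left ideal generated by the elements `nrm (H j) * g` -/
noncomputable def idl {Γ ι : Type} [Group Γ] [Finite Γ] (H : ι → Subgroup Γ) :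
    Submodule (MonoidAlgebra ℝ Γ) (MonoidAlgebra ℝ Γ) :=
  Submodule.span (MonoidAlgebra ℝ Γ)
    {x | ∃ (j : ι) (g : Γ), x = nrm (H j) * MonoidAlgebra.of ℝ Γ g}

theorem nrm_mul_mem {Γ ι : Type} [Group Γ] [Finite Γ] (H : ι → Subgroup Γ) (j : ι)
    (x : MonoidAlgebra ℝ Γ) : nrm (H j) * x ∈ idl H := by
  refine MonoidAlgebra.induction_on (motive := fun x => nrm (H j) * x ∈ idl H) x ?_ ?_ ?_
  · intro g
    exact Submodule.subset_span ⟨j, g, rfl⟩
  · intro a b ha hb
    rw [mul_add]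
    exact Submodule.add_mem _ ha hb
  · intro r a ha
    rw [mul_smul_comm]
    have h1 : r • (nrm (H j) * a) = algebraMap ℝ (MonoidAlgebra ℝ Γ) r • (nrm (H j) * a) := by
      rw [smul_eq_mul, Algebra.smul_def]
    rw [h1]
    exact Submodule.smul_mem _ _ ha

theorem nrm_mem {Γ ι : Type} [Group Γ] [Finite Γ] (H : ι → Subgroup Γ) (K : Subgroup Γ)
    (h : Dominates H K) : nrm K ∈ idl H := by
  by_contra hK
  have hne : NeZero (Nat.card Γ : ℝ) := ⟨by exact_mod_cast Nat.card_pos.ne'⟩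
  have hss : IsSemisimpleModule (MonoidAlgebra ℝ Γ) (MonoidAlgebra ℝ Γ ⧸ idl H) := inferInstance
  have hj : ∀ (j : ι) (m : MonoidAlgebra ℝ Γ ⧸ idl H), nrm (H j) • m = 0 := by
    intro j m
    obtain ⟨x, rfl⟩ := Submodule.Quotient.mk_surjective _ m
    rw [← Submodule.Quotient.mk_smul, Submodule.Quotient.mk_eq_zero]
    exact nrm_mul_mem H j x
  have hall : ∀ m : MonoidAlgebra ℝ Γ ⧸ idl H, nrm K • m = 0 := by
    intro m
    have hm : m ∈ sSup {S : Submodule (MonoidAlgebra ℝ Γ) (MonoidAlgebra ℝ Γ ⧸ idl H) |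
        IsSimpleModule (MonoidAlgebra ℝ Γ) S} := by
      rw [IsSemisimpleModule.sSup_simples_eq_top]
      trivial
    rw [sSup_eq_iSup'] at hm
    refine Submodule.iSup_induction _ (motive := fun m => nrm K • m = 0) hm ?_ ?_ ?_
    · rintro ⟨S, hS⟩ x hx
      by_contra hne'
      have hfix : Fixes K (nrm K • (⟨x, hx⟩ : S)) := fun k hk => by
        rw [smul_smul, of_mul_nrm K hk]
      obtain ⟨j, v, hv0, hv⟩ := h S hS ⟨nrm K • ⟨x, hx⟩, fun h0 => hne' (congrArg Subtype.val h0),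
        hfix⟩
      have h1 := nrm_smul_of_fixes (H j) v hv
      have h2 : nrm (H j) • v = 0 := Subtype.ext (hj j v)
      rw [h2] at h1
      have : Finite (H j) := inferInstance
      exact hv0 (eq_zero_of_nsmul (Γ := Γ) Nat.card_pos.ne' v h1.symm)
    · exact smul_zero _
    · intro a b ha hb
      show nrm K • (a + b) = 0
      rw [smul_add, ha, hb, add_zero]
  have h1 := hall (Submodule.Quotient.mk 1)
  rw [← Submodule.Quotient.mk_smul, Submodule.Quotient.mk_eq_zero, smul_eq_mul, mul_one] at h1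
  exact hK h1

theorem dominates_of_partition {Γ ι : Type} [Group Γ] [Finite Γ] [Fintype ι] [Nontrivial ι]
    (H : ι → Subgroup Γ) (h1 : ∀ i j, i ≠ j → H i ⊓ H j = ⊥) (h2 : ∀ g : Γ, ∃ j, g ∈ H j) :
    Dominates H ⊥ := by
  classical
  intro V _ _ _ hV
  obtain ⟨v, hv0, _⟩ := hV
  by_contra hcon
  push Not at hcon
  let _ := Fintype.ofFinite Γ
  have hn : ∀ j, nrm (H j) • v = 0 := by
    intro j
    by_contra hne
    refine hcon j _ hne fun h hh => ?_
    rw [smul_smul, of_mul_nrm (H j) hh]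
  have ht : nrm (⊤ : Subgroup Γ) • v = 0 := by
    obtain ⟨j⟩ : Nonempty ι := inferInstance
    by_contra hne
    refine hcon j _ hne fun h _ => ?_
    rw [smul_smul, of_mul_nrm ⊤ (Subgroup.mem_top h)]
  have hsum : ∀ (L : Subgroup Γ), nrm L = ∑ g : Γ, if g ∈ L then MonoidAlgebra.of ℝ Γ g else 0 := by
    intro L
    let _ := Fintype.ofFinite L
    show ∑ h : L, MonoidAlgebra.of ℝ Γ h = _
    rw [← Finset.sum_filter]
    exact (Finset.sum_subtype (Finset.univ.filter fun g : Γ => g ∈ L) (fun g => by simp)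
      fun g => MonoidAlgebra.of ℝ Γ g).symm
  have hkey : ∑ j, nrm (H j) = nrm ⊤ + (Fintype.card ι - 1) • (1 : MonoidAlgebra ℝ Γ) := by
    simp only [hsum]
    rw [Finset.sum_comm]
    have h3 : ∀ g : Γ, (∑ j, if g ∈ H j then MonoidAlgebra.of ℝ Γ g else 0) =
        MonoidAlgebra.of ℝ Γ g +
          if g = 1 then (Fintype.card ι - 1) • (1 : MonoidAlgebra ℝ Γ) else 0 := by
      intro g
      by_cases hg : g = 1
      · subst hg
        simp only [one_mem, if_true, Finset.sum_const, Finset.card_univ, map_one]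
        have h4 : 1 ≤ Fintype.card ι := Fintype.card_pos
        conv_rhs => rw [← one_smul ℕ (1 : MonoidAlgebra ℝ Γ), smul_smul, mul_one, ← add_smul]
        congr 1
        omega
      · rw [if_neg hg, add_zero]
        obtain ⟨j, hj⟩ := h2 g
        rw [Finset.sum_eq_single j, if_pos hj]
        · intro i _ hij
          rw [if_neg]
          intro hi
          apply hg
          have : g ∈ H i ⊓ H j := ⟨hi, hj⟩
          rw [h1 i j hij] at this
          exact Subgroup.mem_bot.1 this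
        · intro hj'
          exact (hj' (Finset.mem_univ j)).elim
    simp only [h3, Finset.sum_add_distrib, Subgroup.mem_top, if_true, Finset.sum_ite_eq',
      Finset.mem_univ]
  have h5 := congrArg (fun r => r • v) hkey
  simp only [Finset.sum_smul, hn, Finset.sum_const_zero, add_smul, ht, zero_add] at h5
  rw [smul_assoc, one_smul] at h5
  have h6 : Fintype.card ι - 1 ≠ 0 := by
    have := Fintype.one_lt_card (α := ι)
    omega
  exact hv0 (eq_zero_of_nsmul (Γ := Γ) h6 v h5.symm)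

end Helper69GA
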