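import Pool.Agent.helper69.GA.Lin

/-!
# Isomorphic permutation representations
-/

set_option autoImplicit false

open Helper77Reg Helper69ZC

namespace Helper69GA

/-- The permutation representations on the real functions on the coset spaces `Γ ⧸ H j` and
`Γ ⧸ K l` are isomorphic. -/
def Similar {Γ ι κ : Type} [Group Γ] (H : ι → Subgroup Γ) (K : κ → Subgroup Γ) : Prop :=
  ∃ φ : ((Σ j, Γ ⧸ H j) → ℝ) ≃ₗ[ℝ] ((Σ l, Γ ⧸ K l) → ℝ),
    ∀ (g : Γ) (a : (Σ j, Γ ⧸ H j) → ℝ) (t : Σ l, Γ ⧸ K l),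
      φ (fun s => a (g⁻¹ • s)) t = φ a (g⁻¹ • t)

/-- equivariant functions -/
def equi {Γ : Type} [Group Γ] {A : ModuleCat.{0} ℝ} (ρ : Γ →* Module.End ℝ A) (S : Type)
    [MulAction Γ S] : Submodule ℝ (S → A) where
  carrier := {α | ∀ g s, α (g • s) = ρ g (α s)}
  add_mem' := fun {α β} ha hb g s => by
    show α (g • s) + β (g • s) = ρ g (α s + β s)
    rw [ha, hb, map_add]
  zero_mem' := fun g s => by
    show (0 : A) = ρ g 0
    rw [map_zero]
  smul_mem' := fun c α ha g s => by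
    show c • α (g • s) = ρ g (c • α s)
    rw [ha, map_smul]

/-- the linear map on equivariant functions -/
noncomputable def EF {Γ : Type} [Group Γ] {F : LinMap} (ρ : Action Γ F) (S : Type)
    [MulAction Γ S] : LinMap where
  A := ModuleCat.of ℝ (equi ρ.a S)
  B := ModuleCat.of ℝ (equi ρ.b S)
  f :=
    { toFun := fun α => (⟨fun s => F.f ((α : equi ρ.a S).1 s), fun g s => by
        show F.f ((α : equi ρ.a S).1 (g • s)) = ρ.b g (F.f ((α : equi ρ.a S).1 s))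
        rw [(α : equi ρ.a S).2 g s, ρ.hom]⟩ : equi ρ.b S)
      map_add' := fun α β => Subtype.ext (funext fun s => map_add F.f _ _)
      map_smul' := fun c α => Subtype.ext (funext fun s => map_smul F.f _ _) }

/-- extension of scalars of a linear map between function spaces -/
noncomputable def ext {S T : Type} [Fintype S] [DecidableEq S] {A : ModuleCat.{0} ℝ}
    (φ : (S → ℝ) →ₗ[ℝ] (T → ℝ)) : (S → A) →ₗ[ℝ] (T → A) where
  toFun α t := ∑ s, φ (Pi.single s 1) t • α s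
  map_add' α β := by
    funext t
    show ∑ s, φ (Pi.single s 1) t • (α s + β s) = _
    simp only [smul_add, Finset.sum_add_distrib]
    rfl
  map_smul' c α := by
    funext t
    show ∑ s, φ (Pi.single s 1) t • (c • α s) = c • ∑ s, φ (Pi.single s 1) t • α s
    rw [Finset.smul_sum]
    exact Finset.sum_congr rfl fun s _ => smul_comm _ _ _

theorem ext_ext {S T U : Type} [Fintype S] [DecidableEq S] [Fintype T] [DecidableEq T]
    {A : ModuleCat.{0} ℝ} (φ : (S → ℝ) →ₗ[ℝ] (T → ℝ)) (ψ : (T → ℝ) →ₗ[ℝ] (U → ℝ)) (α : S → A) :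
    ext ψ (ext φ α) = ext (ψ ∘ₗ φ) α := by
  funext u
  show ∑ t, ψ (Pi.single t 1) u • (∑ s, φ (Pi.single s 1) t • α s) =
    ∑ s, ψ (φ (Pi.single s 1)) u • α s
  simp only [Finset.smul_sum]
  rw [Finset.sum_comm]
  refine Finset.sum_congr rfl fun s _ => ?_
  simp only [smul_smul]
  rw [← Finset.sum_smul]
  congr 1
  have h1 : φ (Pi.single s 1) = ∑ t, φ (Pi.single s 1) t • (Pi.single t 1 : T → ℝ) := by
    funext t
    rw [Finset.sum_apply, Finset.sum_eq_single t]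
    · simp
    · intro b _ hb
      simp [hb.symm]
    · intro h
      exact (h (Finset.mem_univ t)).elim
  conv_rhs => rw [h1]
  rw [map_sum, Finset.sum_apply]
  refine Finset.sum_congr rfl fun t _ => ?_
  rw [map_smul, Pi.smul_apply, smul_eq_mul, mul_comm]

theorem ext_id {S : Type} [Fintype S] [DecidableEq S] {A : ModuleCat.{0} ℝ} (α : S → A) :
    ext (LinearMap.id : (S → ℝ) →ₗ[ℝ] (S → ℝ)) α = α := by
  funext t
  show ∑ s, (Pi.single s 1 : S → ℝ) t • α s = α t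
  rw [Finset.sum_eq_single t]
  · simp
  · intro b _ hb
    rw [Pi.single_apply, if_neg hb.symm, zero_smul]
  · intro h
    exact (h (Finset.mem_univ t)).elim

theorem ext_mem {Γ S T : Type} [Group Γ] [MulAction Γ S] [MulAction Γ T] [Fintype S]
    [DecidableEq S] {A : ModuleCat.{0} ℝ} (ρ : Γ →* Module.End ℝ A)
    (φ : (S → ℝ) →ₗ[ℝ] (T → ℝ))
    (hφ : ∀ (g : Γ) (a : S → ℝ) (t : T), φ (fun s => a (g⁻¹ • s)) t = φ a (g⁻¹ • t))
    (α : S → A) (hα : α ∈ equi ρ S) : ext φ α ∈ equi ρ T := by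
  intro g t
  show ∑ s, φ (Pi.single s 1) (g • t) • α s = ρ g (∑ s, φ (Pi.single s 1) t • α s)
  rw [map_sum]
  refine (Fintype.sum_equiv (MulAction.toPerm g) _ _ fun s => ?_).symm
  rw [map_smul, MulAction.toPerm_apply, hα g s]
  congr 1
  have h1 := hφ g (Pi.single s 1) (g • t)
  rw [inv_smul_smul] at h1
  have h2 : (fun s' => (Pi.single s 1 : S → ℝ) (g⁻¹ • s')) = Pi.single (g • s) 1 := by
    funext s'
    rw [Pi.single_apply, Pi.single_apply]
    congr 1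
    rw [inv_smul_eq_iff]
  rw [← h1, h2]

theorem iso_EF {Γ S T : Type} [Group Γ] [MulAction Γ S] [MulAction Γ T] [Finite S]
    [Finite T] {F : LinMap} (ρ : Action Γ F) (φ : (S → ℝ) ≃ₗ[ℝ] (T → ℝ))
    (hφ : ∀ (g : Γ) (a : S → ℝ) (t : T), φ (fun s => a (g⁻¹ • s)) t = φ a (g⁻¹ • t)) :
    (EF ρ S).Iso (EF ρ T) := by
  classical
  let _ := Fintype.ofFinite S
  let _ := Fintype.ofFinite T
  have hψ : ∀ (g : Γ) (a : T → ℝ) (s : S), φ.symm (fun t => a (g⁻¹ • t)) s =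
      φ.symm a (g⁻¹ • s) := by
    intro g a s
    have h1 : φ (fun s => φ.symm a (g⁻¹ • s)) = fun t => a (g⁻¹ • t) := by
      funext t
      rw [hφ, LinearEquiv.apply_symm_apply]
    rw [← h1, LinearEquiv.symm_apply_apply]
  have hlr : ∀ {A : ModuleCat.{0} ℝ} (α : S → A),
      ext (φ.symm : (T → ℝ) →ₗ[ℝ] (S → ℝ)) (ext (φ : (S → ℝ) →ₗ[ℝ] (T → ℝ)) α) = α := by
    intro A α
    rw [ext_ext]
    have : ((φ.symm : (T → ℝ) →ₗ[ℝ] (S → ℝ)) ∘ₗ (φ : (S → ℝ) →ₗ[ℝ] (T → ℝ))) =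
        LinearMap.id := by
      ext a
      simp
    rw [this, ext_id]
  have hrl : ∀ {A : ModuleCat.{0} ℝ} (α : T → A),
      ext (φ : (S → ℝ) →ₗ[ℝ] (T → ℝ)) (ext (φ.symm : (T → ℝ) →ₗ[ℝ] (S → ℝ)) α) = α := by
    intro A α
    rw [ext_ext]
    have : ((φ : (S → ℝ) →ₗ[ℝ] (T → ℝ)) ∘ₗ (φ.symm : (T → ℝ) →ₗ[ℝ] (S → ℝ))) =
        LinearMap.id := by
      ext a
      simp
    rw [this, ext_id]
  let U : ∀ {A : ModuleCat.{0} ℝ} (σ : Γ →* Module.End ℝ A), equi σ S ≃ₗ[ℝ] equi σ T :=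
    fun {A} σ => LinearEquiv.ofLinearMap
      (((ext (φ : (S → ℝ) →ₗ[ℝ] (T → ℝ))) ∘ₗ (equi σ S).subtype).codRestrict (equi σ T)
        fun α => ext_mem σ _ hφ α.1 α.2)
      (((ext (φ.symm : (T → ℝ) →ₗ[ℝ] (S → ℝ))) ∘ₗ (equi σ T).subtype).codRestrict (equi σ S)
        fun α => ext_mem σ _ hψ α.1 α.2)
      (LinearMap.ext fun α => Subtype.ext (hrl α.1)) (LinearMap.ext fun α => Subtype.ext (hlr α.1))
  refine ⟨U ρ.a, U ρ.b, fun α => Subtype.ext (funext fun t => ?_)⟩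
  show ∑ s, φ (Pi.single s 1) t • F.f ((α : equi ρ.a S).1 s) =
    F.f (∑ s, φ (Pi.single s 1) t • (α : equi ρ.a S).1 s)
  rw [map_sum]
  exact Finset.sum_congr rfl fun s _ => (map_smul _ _ _).symm

end Helper69GA
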