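import Pool.Agent.helper69.GA.Brauer

/-!
# Equivariant functions on coset spaces
-/

set_option autoImplicit false

open Helper77Reg Helper69ZC

namespace Helper69GA

theorem op_nrm_of_fixed {Γ : Type} [Group Γ] [Finite Γ] {A : ModuleCat.{0} ℝ}
    (ρ : Γ →* Module.End ℝ A) (H : Subgroup Γ) (y : A) (hy : ∀ h ∈ H, ρ h y = y) :
    op ρ (nrm H) y = (Nat.card H : ℝ) • y := by
  let _ := Fintype.ofFinite H
  show op ρ (∑ h : H, MonoidAlgebra.of ℝ Γ h) y = _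
  rw [map_sum, LinearMap.sum_apply]
  have e2 : ∀ h ∈ (Finset.univ : Finset H), op ρ (MonoidAlgebra.of ℝ Γ (h : Γ)) y = y :=
    fun h _ => by
      rw [op_of]
      exact hy h h.2
  rw [Finset.sum_congr rfl e2, Finset.sum_const, Finset.card_univ, Nat.card_eq_fintype_card,
    Nat.cast_smul_eq_nsmul]

theorem eq_of_coset {Γ : Type} [Group Γ] {A : ModuleCat.{0} ℝ} (ρ : Γ →* Module.End ℝ A)
    (H : Subgroup Γ) (y : A) (hy : ∀ h ∈ H, ρ h y = y) (a b : Γ)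
    (hab : (a : Γ ⧸ H) = (b : Γ ⧸ H)) : ρ a y = ρ b y := by
  have h1 := hy _ (QuotientGroup.eq.1 hab)
  conv_lhs => rw [← h1]
  rw [← Module.End.mul_apply, ← map_mul, mul_inv_cancel_left]

/-- the description of equivariant functions on a union of coset spaces -/
noncomputable def equivEqui {Γ ι : Type} [Group Γ] [Finite Γ] {A : ModuleCat.{0} ℝ}
    (ρ : Γ →* Module.End ℝ A) (H : ι → Subgroup Γ) (E : ι → ModuleCat.{0} ℝ)
    (u : ∀ j, A →ₗ[ℝ] E j) (v : ∀ j, E j →ₗ[ℝ] A)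
    (h1 : ∀ j x, u j (v j x) = (Nat.card (H j) : ℝ) • x)
    (h2 : ∀ j x, v j (u j x) = op ρ (nrm (H j)) x) :
    (∀ j, E j) ≃ₗ[ℝ] equi ρ (Σ j, Γ ⧸ H j) :=
  have hc : ∀ j, (Nat.card (H j) : ℝ) ≠ 0 := fun j => by exact_mod_cast Nat.card_pos.ne'
  have hfix : ∀ j (x : E j), ∀ h ∈ H j, ρ h (v j x) = v j x := by
    intro j x h hh
    have e1 : v j x = (Nat.card (H j) : ℝ)⁻¹ • op ρ (nrm (H j)) (v j x) := by
      rw [← h2, h1, map_smul, smul_smul, inv_mul_cancel₀ (hc j), one_smul]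
    rw [e1, map_smul, ← op_of ρ h, ← Module.End.mul_apply, ← map_mul, of_mul_nrm (H j) hh]
  have hfix' : ∀ (α : equi ρ (Σ j, Γ ⧸ H j)) (j : ι), ∀ h ∈ H j,
      ρ h (α.1 ⟨j, ((1 : Γ) : Γ ⧸ H j)⟩) = α.1 ⟨j, ((1 : Γ) : Γ ⧸ H j)⟩ := by
    intro α j h hh
    rw [← α.2 h]
    refine congrArg α.1 ?_
    show (⟨j, h • ((1 : Γ) : Γ ⧸ H j)⟩ : Σ j, Γ ⧸ H j) = ⟨j, ((1 : Γ) : Γ ⧸ H j)⟩
    congr 1
    show (((h * 1 : Γ)) : Γ ⧸ H j) = ((1 : Γ) : Γ ⧸ H j)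
    rw [QuotientGroup.eq, mul_one, mul_one]
    exact inv_mem hh
  { toFun := fun x => ⟨fun s => ρ s.2.out (v s.1 (x s.1)), fun g s => by
      show ρ (g • s.2).out (v s.1 (x s.1)) = ρ g (ρ s.2.out (v s.1 (x s.1)))
      rw [← Module.End.mul_apply, ← map_mul]
      refine eq_of_coset ρ (H s.1) _ (hfix s.1 _) _ _ ?_
      rw [QuotientGroup.out_eq']
      show g • s.2 = g • ((s.2.out : Γ) : Γ ⧸ H s.1)
      rw [QuotientGroup.out_eq']⟩
    map_add' := fun x y => Subtype.ext (funext fun s => by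
      show ρ s.2.out (v s.1 (x s.1 + y s.1)) =
        ρ s.2.out (v s.1 (x s.1)) + ρ s.2.out (v s.1 (y s.1))
      rw [map_add, map_add])
    map_smul' := fun c x => Subtype.ext (funext fun s => by
      show ρ s.2.out (v s.1 (c • x s.1)) = c • ρ s.2.out (v s.1 (x s.1))
      rw [map_smul, map_smul])
    invFun := fun α j => (Nat.card (H j) : ℝ)⁻¹ • u j (α.1 ⟨j, ((1 : Γ) : Γ ⧸ H j)⟩)
    left_inv := fun x => funext fun j => by
      show (Nat.card (H j) : ℝ)⁻¹ • u j (ρ ((1 : Γ) : Γ ⧸ H j).out (v j (x j))) = x j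
      have e1 : ρ ((1 : Γ) : Γ ⧸ H j).out (v j (x j)) = v j (x j) := by
        rw [eq_of_coset ρ (H j) _ (hfix j _) _ 1 (QuotientGroup.out_eq' _), map_one]
        rfl
      rw [e1, h1, smul_smul, inv_mul_cancel₀ (hc j), one_smul]
    right_inv := fun α => Subtype.ext (funext fun s => by
      obtain ⟨j, c⟩ := s
      show ρ c.out (v j ((Nat.card (H j) : ℝ)⁻¹ • u j (α.1 ⟨j, ((1 : Γ) : Γ ⧸ H j)⟩))) =
        α.1 ⟨j, c⟩
      rw [map_smul, h2, op_nrm_of_fixed ρ (H j) _ (hfix' α j), smul_smul,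
        inv_mul_cancel₀ (hc j), one_smul, ← α.2]
      refine congrArg α.1 ?_
      show (⟨j, c.out • ((1 : Γ) : Γ ⧸ H j)⟩ : Σ j, Γ ⧸ H j) = ⟨j, c⟩
      congr 1
      show (((c.out * 1 : Γ)) : Γ ⧸ H j) = c
      rw [mul_one, QuotientGroup.out_eq']) }

theorem iso_pi {Γ ι : Type} [Group Γ] [Finite Γ] {F : LinMap} (ρ : Action Γ F)
    (H : ι → Subgroup Γ) (E : ι → LinMap) (hE : ∀ j, Desc ρ (H j) (E j)) :
    (LinMap.pi E).Iso (EF ρ (Σ j, Γ ⧸ H j)) := by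
  choose u v h1 h2 h3 h4 using hE
  refine ⟨equivEqui ρ.a H (fun j => (E j).A) (fun j => (u j).a) (fun j => (v j).a) h1 h3,
    equivEqui ρ.b H (fun j => (E j).B) (fun j => (u j).b) (fun j => (v j).b) h2 h4,
    fun x => Subtype.ext (funext fun s => ?_)⟩
  show ρ.b s.2.out ((v s.1).b ((E s.1).f (x s.1))) = F.f (ρ.a s.2.out ((v s.1).a (x s.1)))
  rw [ρ.hom, (v s.1).hom]

theorem iso_trans {F G H : LinMap} (h : F.Iso G) (h' : G.Iso H) : F.Iso H := by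
  obtain ⟨u, v, h⟩ := h
  obtain ⟨u', v', h'⟩ := h'
  exact ⟨u.trans u', v.trans v', fun a => by
    show v' (v (F.f a)) = H.f (u' (u a))
    rw [h, h']⟩

/-- Brauer relations -/
theorem iso_of_similar {Γ ι κ : Type} [Group Γ] [Finite Γ] [Finite ι] [Finite κ] {F : LinMap}
    (ρ : Action Γ F) (H : ι → Subgroup Γ) (K : κ → Subgroup Γ) (h : Similar H K)
    (E : ι → LinMap) (hE : ∀ j, Desc ρ (H j) (E j)) (E' : κ → LinMap)
    (hE' : ∀ l, Desc ρ (K l) (E' l)) : (LinMap.pi E).Iso (LinMap.pi E') := by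
  obtain ⟨φ, hφ⟩ := h
  exact iso_trans (iso_pi ρ H E hE) (iso_trans (iso_EF ρ φ hφ) (iso_pi ρ K E' hE').symm)

end Helper69GA
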