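import Pool.Agent.helper69.ZC.Defs

/-!
# Finite groups acting on arithmetic schemes

Definitions for the theorem on quotients by subgroups.
-/

set_option autoImplicit false

open AlgebraicGeometry CategoryTheory CategoryTheory.Limits Helper77Reg Helper69ZC

namespace Helper69GA

/-- The vector `v` of the real representation `V` of `Γ` is fixed by the subgroup `H`. -/
def Fixes {Γ V : Type} [Group Γ] [AddCommGroup V] [Module (MonoidAlgebra ℝ Γ) V]
    (H : Subgroup Γ) (v : V) : Prop :=
  ∀ h ∈ H, MonoidAlgebra.of ℝ Γ h • v = v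

/-- Every irreducible real representation of `Γ` which has a non-zero vector fixed by `K` has a
non-zero vector fixed by some member of the family `H` of subgroups. -/
def Dominates {Γ ι : Type} [Group Γ] (H : ι → Subgroup Γ) (K : Subgroup Γ) : Prop :=
  ∀ (V : Type) [AddCommGroup V] [Module (MonoidAlgebra ℝ Γ) V],
    IsSimpleModule (MonoidAlgebra ℝ Γ) V → (∃ v : V, v ≠ 0 ∧ Fixes K v) →
      ∃ j, ∃ v : V, v ≠ 0 ∧ Fixes (H j) v

/-- The group `Γ` acts faithfully on `X` by the morphisms `ρ g`. -/
structure IsAction {Γ : Type} [Group Γ] {X : Scheme.{0}} (ρ : Γ → (X ⟶ X)) : Prop where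
  one : ρ 1 = 𝟙 X
  mul : ∀ g h, ρ (g * h) = ρ h ≫ ρ g
  faithful : Function.Injective ρ

/-- `π : X ⟶ Y` is a regular model of the quotient of `X` by the subgroup `H` of `Γ`: `Y` is an
arithmetic scheme of the dimension `d` of `X`, the morphism `π` is invariant under `H`, maps the
generic point `ξ` of `X` to the generic point of `Y`, and its degree is the order of `H`. -/
structure IsQuotientModel {Γ : Type} [Group Γ] {X : Scheme.{0}} (ρ : Γ → (X ⟶ X)) (d : ℕ)
    (ξ : X) (H : Subgroup Γ) {Y : Scheme.{0}} (π : X ⟶ Y) : Prop where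
  arithmetic : IsArithmetic Y d
  invariant : ∀ h ∈ H, ρ h ≫ π = π
  dominant : IsGenericPoint (π ξ) Set.univ
  degree : π.residueDegree ξ = Nat.card H

/-- Base change formula: let `π : X ⟶ Y` be a generically finite morphism of arithmetic schemes of
dimension `d`, the degree of which is the number of the pairwise different morphisms `σ k` from `X`
to itself over `Y` (so that the extension of function fields is Galois). Push-forward followed by
pull-back along `π` is the sum of the push-forwards along the `σ k`, if `π` is finite, or in weight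
`d` and degree `2d-1` or `2d-2`. -/
def GaloisFormula (G : GysinData) : Prop :=
  ∀ {X Y : Scheme.{0}} {d : ℕ} (π : X ⟶ Y) (ξ : X), IsArithmetic X d → IsArithmetic Y d →
    IsGenericPoint ξ Set.univ → IsGenericPoint (π ξ) Set.univ →
    ∀ {ι : Type} [Fintype ι] (σ : ι → (X ⟶ X)), Function.Injective σ → (∀ k, σ k ≫ π = π) →
      π.residueDegree ξ = Fintype.card ι → ∀ p q : ℤ,
        (IsFinite π ∨ q = d ∧ (p = 2 * d - 1 ∨ p = 2 * d - 2)) →
        (∀ x, (G.pull π p q).a ((G.push π p q p q).a x) = ∑ k, (G.push (σ k) p q p q).a x) ∧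
          ∀ x, (G.pull π p q).b ((G.push π p q p q).b x) = ∑ k, (G.push (σ k) p q p q).b x

end Helper69GA
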