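import Pool.Agent.helper69.GA.Alg
import Pool.Agent.helper69.ZC.Final2

/-!
# Group actions on linear maps and descent
-/

set_option autoImplicit false

open Helper77Reg Helper69ZC

namespace Helper69GA

/-- An action of the group `Γ` on the linear map `F`. -/
structure Action (Γ : Type) [Group Γ] (F : LinMap) where
  a : Γ →* Module.End ℝ F.A
  b : Γ →* Module.End ℝ F.B
  hom : ∀ g x, F.f (a g x) = b g (F.f x)

/-- the operator of an element of the group ring -/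
noncomputable def op {Γ : Type} [Group Γ] {A : ModuleCat.{0} ℝ} (ρ : Γ →* Module.End ℝ A) :
    MonoidAlgebra ℝ Γ →ₐ[ℝ] Module.End ℝ A :=
  MonoidAlgebra.lift ℝ (Module.End ℝ A) Γ ρ

theorem op_of {Γ : Type} [Group Γ] {A : ModuleCat.{0} ℝ} (ρ : Γ →* Module.End ℝ A) (g : Γ) :
    op ρ (MonoidAlgebra.of ℝ Γ g) = ρ g := MonoidAlgebra.lift_of ρ g

theorem op_hom {Γ : Type} [Group Γ] {F : LinMap} (ρ : Action Γ F) (r : MonoidAlgebra ℝ Γ)
    (x : F.A) : F.f (op ρ.a r x) = op ρ.b r (F.f x) := by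
  refine MonoidAlgebra.induction_on
    (motive := fun r => F.f (op ρ.a r x) = op ρ.b r (F.f x)) r ?_ ?_ ?_
  · intro g
    rw [op_of, op_of]
    exact ρ.hom g x
  · intro s t hs ht
    rw [map_add, map_add, LinearMap.add_apply, LinearMap.add_apply, map_add, hs, ht]
  · intro c s hs
    rw [map_smul, map_smul, LinearMap.smul_apply, LinearMap.smul_apply, map_smul, hs]

/-- the linear map `F'` is the part of `F` fixed by `H` -/
def Desc {Γ : Type} [Group Γ] [Finite Γ] {F : LinMap} (ρ : Action Γ F) (H : Subgroup Γ)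
    (F' : LinMap) : Prop :=
  ∃ (u : Mor F F') (v : Mor F' F),
    (∀ x, u.a (v.a x) = (Nat.card H : ℝ) • x) ∧ (∀ x, u.b (v.b x) = (Nat.card H : ℝ) • x) ∧
    (∀ x, v.a (u.a x) = op ρ.a (nrm H) x) ∧ (∀ x, v.b (u.b x) = op ρ.b (nrm H) x)

/-- injectivity -/
theorem injective_of {Γ ι : Type} [Group Γ] [Finite Γ] {F : LinMap} (ρ : Action Γ F)
    (H : ι → Subgroup Γ) (K : Subgroup Γ) (hKH : nrm K ∈ idl H) (E : ι → LinMap)
    (hE : ∀ j, Desc ρ (H j) (E j)) (E' : LinMap) (hE' : Desc ρ K E')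
    (hb : ∀ j, Function.Injective (E j).f) : Function.Injective E'.f := by
  obtain ⟨u, v, h1, h2, h3, h4⟩ := hE'
  rw [injective_iff_map_eq_zero]
  intro x hx
  have hc : (Nat.card K : ℝ) ≠ 0 := by exact_mod_cast Nat.card_pos.ne'
  have hy : F.f (v.a x) = 0 := by rw [v.hom, hx, map_zero]
  have key : ∀ r ∈ idl H, op ρ.a r (v.a x) = 0 := by
    intro r hr
    refine Submodule.span_induction (p := fun r _ => op ρ.a r (v.a x) = 0) ?_ ?_ ?_ ?_ hr
    · rintro _ ⟨j, g, rfl⟩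
      obtain ⟨u', v', k1, k2, k3, k4⟩ := hE j
      rw [map_mul, Module.End.mul_apply, ← k3]
      have h5 : u'.a (op ρ.a (MonoidAlgebra.of ℝ Γ g) (v.a x)) = 0 := by
        apply hb j
        rw [u'.hom, op_hom, hy, map_zero, map_zero, map_zero]
      rw [h5, map_zero]
    · rw [map_zero]
      rfl
    · intro s t _ _ hs ht
      rw [map_add, LinearMap.add_apply, hs, ht, add_zero]
    · intro s t _ ht
      rw [smul_eq_mul, map_mul, Module.End.mul_apply, ht, map_zero]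
  have h5 := key _ hKH
  rw [← h3, h1, map_smul] at h5
  have h6 : v.a x = 0 := (smul_eq_zero.1 h5).resolve_left hc
  have h7 := h1 x
  rw [h6, map_zero] at h7
  exact (smul_eq_zero.1 h7.symm).resolve_left hc

/-- the basic lifting statement: `b` is an invariant vector -/
theorem lift_of_mem {Γ ι : Type} [Group Γ] [Finite Γ] {F : LinMap} (ρ : Action Γ F)
    (H : ι → Subgroup Γ) (E : ι → LinMap) (u : ∀ j, Mor F (E j)) (v : ∀ j, Mor (E j) F)
    (h4 : ∀ j x, (v j).b ((u j).b x) = op ρ.b (nrm (H j)) x) (b : F.B)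
    (hb : ∀ r : MonoidAlgebra ℝ Γ, ∃ c : ℝ, op ρ.b r b = c • b)
    (hE : ∀ j, ∀ y : (E j).B, ∃ (c : ℝ) (x : (E j).A), y = c • (u j).b b + (E j).f x) (w : F.B)
    (r : MonoidAlgebra ℝ Γ) (hr : r ∈ idl H) :
    ∃ (c : ℝ) (x : F.A), op ρ.b r w = c • b + F.f x := by
  refine Submodule.span_induction (p := fun r _ => ∃ (c : ℝ) (x : F.A),
    op ρ.b r w = c • b + F.f x) ?_ ?_ ?_ ?_ hr
  · rintro _ ⟨j, g, rfl⟩
    obtain ⟨c, x, hx⟩ := hE j ((u j).b (op ρ.b (MonoidAlgebra.of ℝ Γ g) w))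
    obtain ⟨c', hc'⟩ := hb (nrm (H j))
    refine ⟨c * c', (v j).a x, ?_⟩
    rw [map_mul, Module.End.mul_apply, ← h4, hx, map_add, map_smul, h4, hc', (v j).hom, smul_smul]
  · exact ⟨0, 0, by rw [map_zero, map_zero, zero_smul, zero_add]; rfl⟩
  · rintro s t _ _ ⟨c, x, hx⟩ ⟨c', x', hx'⟩
    refine ⟨c + c', x + x', ?_⟩
    rw [map_add, LinearMap.add_apply, hx, hx', map_add, add_smul]
    abel
  · rintro s t _ ⟨c, x, hx⟩
    obtain ⟨c', hc'⟩ := hb s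
    refine ⟨c * c', op ρ.a s x, ?_⟩
    rw [smul_eq_mul, map_mul, Module.End.mul_apply, hx, map_add, map_smul, hc', op_hom, smul_smul]

/-- bijectivity -/
theorem bijective_of {Γ ι : Type} [Group Γ] [Finite Γ] {F : LinMap} (ρ : Action Γ F)
    (H : ι → Subgroup Γ) (K : Subgroup Γ) (hKH : nrm K ∈ idl H) (E : ι → LinMap)
    (hE : ∀ j, Desc ρ (H j) (E j)) (E' : LinMap) (hE' : Desc ρ K E')
    (hb : ∀ j, (E j).Bijective) : E'.Bijective := by
  refine ⟨injective_of ρ H K hKH E hE E' hE' fun j => (hb j).1, fun z => ?_⟩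
  obtain ⟨u, v, h1, h2, h3, h4⟩ := hE'
  have hc : (Nat.card K : ℝ) ≠ 0 := by exact_mod_cast Nat.card_pos.ne'
  choose u' v' k1 k2 k3 k4 using hE
  obtain ⟨c, x, hx⟩ := lift_of_mem ρ H E u' v' k4 0 (fun r => ⟨0, by rw [map_zero, smul_zero]⟩)
    (fun j y => by
      obtain ⟨x, hx⟩ := (hb j).2 y
      exact ⟨0, x, by rw [zero_smul, zero_add, hx]⟩) (v.b z) (nrm K) hKH
  rw [smul_zero, zero_add, ← h4, h2, map_smul] at hx
  have h5 : u.b (F.f x) = E'.f (u.a x) := (u.hom x).symm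
  refine ⟨((Nat.card K : ℝ) * (Nat.card K : ℝ))⁻¹ • u.a x, ?_⟩
  rw [map_smul, ← h5, ← hx, map_smul, h2, smul_smul, smul_smul, mul_assoc, inv_mul_cancel₀
    (mul_ne_zero hc hc), one_smul]

/-- the case of a cokernel of dimension one -/
theorem almostOnto_of {Γ ι : Type} [Group Γ] [Finite Γ] {F : LinMap} (ρ : Action Γ F)
    (H : ι → Subgroup Γ) (K : Subgroup Γ) (hKH : nrm K ∈ idl H) (E : ι → LinMap)
    (hE : ∀ j, Desc ρ (H j) (E j)) (E' : LinMap) (hE' : Desc ρ K E')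
    (hb : ∀ j, (E j).AlmostOnto) (E₀ : LinMap) (hE₀ : Desc ρ ⊤ E₀) (hn : ¬ E₀.Onto) :
    E'.AlmostOnto := by
  refine ⟨injective_of ρ H K hKH E hE E' hE' fun j => (hb j).1, ?_⟩
  obtain ⟨u, v, h1, h2, h3, h4⟩ := hE'
  obtain ⟨u₀, v₀, l1, l2, l3, l4⟩ := hE₀
  have hc : (Nat.card K : ℝ) ≠ 0 := by exact_mod_cast Nat.card_pos.ne'
  have hc₀ : (Nat.card (⊤ : Subgroup Γ) : ℝ) ≠ 0 := by exact_mod_cast Nat.card_pos.ne'
  choose u' v' k1 k2 k3 k4 using hE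
  obtain ⟨b₀, hb₀⟩ : ∃ b₀, ∀ x, E₀.f x ≠ b₀ := by
    by_contra hcon
    push Not at hcon
    exact hn hcon
  -- the vector `v₀ b₀` is invariant
  have hinv : ∀ g : Γ, op ρ.b (MonoidAlgebra.of ℝ Γ g) (v₀.b b₀) = v₀.b b₀ := by
    intro g
    have e1 : v₀.b b₀ = (Nat.card (⊤ : Subgroup Γ) : ℝ)⁻¹ • op ρ.b (nrm ⊤) (v₀.b b₀) := by
      rw [← l4, l2, map_smul, smul_smul, inv_mul_cancel₀ hc₀, one_smul]
    rw [e1, map_smul, ← Module.End.mul_apply, ← map_mul, of_mul_nrm ⊤ (Subgroup.mem_top g)]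
  have hinv' : ∀ r : MonoidAlgebra ℝ Γ, ∃ c : ℝ, op ρ.b r (v₀.b b₀) = c • v₀.b b₀ := by
    intro r
    refine MonoidAlgebra.induction_on
      (motive := fun r => ∃ c : ℝ, op ρ.b r (v₀.b b₀) = c • v₀.b b₀) r ?_ ?_ ?_
    · intro g
      exact ⟨1, by rw [hinv, one_smul]⟩
    · rintro s t ⟨c, hc⟩ ⟨c', hc'⟩
      exact ⟨c + c', by rw [map_add, LinearMap.add_apply, hc, hc', add_smul]⟩
    · rintro c s ⟨c', hc'⟩
      exact ⟨c * c', by rw [map_smul, LinearMap.smul_apply, hc', smul_smul]⟩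
  have hfix : ∀ (L : Subgroup Γ), op ρ.b (nrm L) (v₀.b b₀) = (Nat.card L : ℝ) • v₀.b b₀ := by
    intro L
    let _ := Fintype.ofFinite L
    show op ρ.b (∑ h : L, MonoidAlgebra.of ℝ Γ h) (v₀.b b₀) = _
    rw [map_sum, LinearMap.sum_apply]
    have e2 : ∀ h ∈ (Finset.univ : Finset L),
        op ρ.b (MonoidAlgebra.of ℝ Γ (h : Γ)) (v₀.b b₀) = v₀.b b₀ := fun h _ => hinv h
    rw [Finset.sum_congr rfl e2, Finset.sum_const, Finset.card_univ, Nat.card_eq_fintype_card,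
      Nat.cast_smul_eq_nsmul]
  -- it generates the cokernels
  have hgen : ∀ j, ∀ y : (E j).B, ∃ (c : ℝ) (x : (E j).A),
      y = c • (u' j).b (v₀.b b₀) + (E j).f x := by
    intro j y
    obtain ⟨_, w, hw⟩ := hb j
    obtain ⟨c₁, x₁, e1⟩ := hw ((u' j).b (v₀.b b₀))
    obtain ⟨c₂, x₂, e2⟩ := hw y
    have hc₁ : c₁ ≠ 0 := by
      intro h0
      rw [h0, zero_smul, zero_add] at e1
      have hcj : (Nat.card (H j) : ℝ) ≠ 0 := by exact_mod_cast Nat.card_pos.ne'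
      have e3 : (Nat.card (H j) : ℝ) • v₀.b b₀ = F.f ((v' j).a x₁) := by
        rw [← hfix, ← k4, e1, (v' j).hom]
      have e4 : ((Nat.card (H j) : ℝ) * (Nat.card (⊤ : Subgroup Γ) : ℝ)) • b₀ =
          E₀.f (u₀.a ((v' j).a x₁)) := by
        rw [u₀.hom, ← e3, map_smul, l2, smul_smul]
      refine hb₀ (((Nat.card (H j) : ℝ) * (Nat.card (⊤ : Subgroup Γ) : ℝ))⁻¹ •
        u₀.a ((v' j).a x₁)) ?_
      rw [map_smul, ← e4, smul_smul, inv_mul_cancel₀ (mul_ne_zero hcj hc₀), one_smul]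
    refine ⟨c₂ * c₁⁻¹, x₂ - (c₂ * c₁⁻¹) • x₁, ?_⟩
    rw [e1, e2, map_sub, map_smul, smul_add, smul_smul, mul_assoc, inv_mul_cancel₀ hc₁, mul_one]
    abel
  refine ⟨u.b (v₀.b b₀), fun z => ?_⟩
  obtain ⟨c, x, hx⟩ := lift_of_mem ρ H E u' v' k4 (v₀.b b₀) hinv' hgen (v.b z) (nrm K) hKH
  rw [← h4, h2, map_smul] at hx
  refine ⟨((Nat.card K : ℝ) * (Nat.card K : ℝ))⁻¹ * c,
    ((Nat.card K : ℝ) * (Nat.card K : ℝ))⁻¹ • u.a x, ?_⟩
  have h5 := congrArg (fun t => u.b t) hx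
  simp only [map_smul, map_add] at h5
  rw [h2, ← u.hom, smul_smul] at h5
  rw [map_smul, mul_smul, ← smul_add, ← h5, smul_smul, inv_mul_cancel₀ (mul_ne_zero hc hc),
    one_smul]

end Helper69GA
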