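import Pool.Agent.helper69.GA.Lin

/-!
# Q1 and quotients by subgroups
-/

set_option autoImplicit false

open AlgebraicGeometry CategoryTheory CategoryTheory.Limits Helper77Reg Helper69ZC

namespace Helper69GA

/-- pull-back followed by push-forward is multiplication by the degree -/
theorem push_pull {G : GysinData} (hG : IsGysinTheory G) {X S : Scheme.{0}} {d : ℕ}
    (hX : IsArithmetic X d) (hS : IsArithmetic S d) (f : X ⟶ S) (η : X)
    (hη : IsGenericPoint η Set.univ) (hζ : IsGenericPoint (f η) Set.univ) (p q : ℤ) :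
    (∀ y, (G.push f p q p q).a ((G.pull f p q).a y) = (f.residueDegree η : ℝ) • y) ∧
      ∀ y, (G.push f p q p q).b ((G.pull f p q).b y) = (f.residueDegree η : ℝ) • y := by
  obtain ⟨ζ, h1'⟩ : ∃ ζ, f η = ζ := ⟨_, rfl⟩
  rw [h1'] at hζ
  set D : ℕ := f.residueDegree η with hD
  set s : Option Unit → Span S d := fun o => o.elim ⟨X, hX, η, hη, f, f⟩
    fun _ => diagSpan hS ζ hζ with hs
  set c : Option Unit → ℤ := fun o => o.elim 1 fun _ => -(D : ℤ) with hc
  have hcyc : (⟨X, hX, η, hη, f, f⟩ : Span S d).cycle =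
      Finsupp.single (toSquare (𝟙 S) (𝟙 S) ζ) (D : ℤ) := by
    show Finsupp.single (toSquare f f η) (((toSquare f f).residueDegree η : ℕ) : ℤ) = _
    have e1 : toSquare f f = f ≫ toSquare (𝟙 S) (𝟙 S) := by
      rw [← comp_toSquare, Category.comp_id]
    rw [e1, residueDegree_comp, residueDegree_eq_one_of_section (toSquare (𝟙 S) (𝟙 S))
      (pullback.fst (toZ S) (toZ S)) (toSquare_fst _ _), one_mul]
    have e2 : (f ≫ toSquare (𝟙 S) (𝟙 S)) η = toSquare (𝟙 S) (𝟙 S) ζ := by
      rw [← h1']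
      rfl
    rw [e2]
  have hrat : IsRatTrivial (∑ i, c i • (s i).cycle) := by
    have : ∑ i, c i • (s i).cycle = 0 := by
      rw [Fintype.sum_option]
      simp only [hc, hs, Option.elim, Fintype.sum_unique]
      rw [hcyc, diagSpan_cycle, one_smul, Finsupp.smul_single, smul_eq_mul, mul_one,
        ← Finsupp.single_add, add_neg_cancel, Finsupp.single_zero]
    rw [this]
    exact AddSubgroup.zero_mem _
  obtain ⟨ha, hb⟩ := hG.rational hS s c hrat p q
  rw [Fintype.sum_option] at ha hb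
  simp only [hc, hs, Option.elim, Fintype.sum_unique, one_smul] at ha hb
  rw [act_diag hG hS] at ha hb
  constructor
  · intro y
    have e1 := congrArg (fun l => l y) ha
    simp only [LinearMap.add_apply, LinearMap.smul_apply, LinearMap.zero_apply] at e1
    have e2 := eq_neg_of_add_eq_zero_left e1
    have e3 : (Mor.id (G.reg S p q)).a y = y := rfl
    rw [e3, neg_smul, neg_neg] at e2
    rw [← Int.cast_smul_eq_zsmul ℝ, Int.cast_natCast] at e2
    exact e2
  · intro y
    have e1 := congrArg (fun l => l y) hb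
    simp only [LinearMap.add_apply, LinearMap.smul_apply, LinearMap.zero_apply] at e1
    have e2 := eq_neg_of_add_eq_zero_left e1
    have e3 : (Mor.id (G.reg S p q)).b y = y := rfl
    rw [e3, neg_smul, neg_neg] at e2
    rw [← Int.cast_smul_eq_zsmul ℝ, Int.cast_natCast] at e2
    exact e2

/-- the action of the group on the regulator -/
def action {G : GysinData} (hG : IsGysinTheory G) {Γ : Type} [Group Γ] {X : Scheme.{0}} {d : ℕ}
    (hX : IsArithmetic X d) {ρ : Γ → (X ⟶ X)} (hρ : IsAction ρ) (p q : ℤ) :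
    Action Γ (G.reg X p q) where
  a :=
    { toFun := fun g => (G.push (ρ g) p q p q).a
      map_one' := by
        rw [hρ.one, hG.push_id hX]
        rfl
      map_mul' := fun g h => by
        rw [hρ.mul, hG.push_comp (ρ h) (ρ g) hX hX hX p q p q p q (by ring) (by ring) (by ring)
          (by ring)]
        rfl }
  b :=
    { toFun := fun g => (G.push (ρ g) p q p q).b
      map_one' := by
        rw [hρ.one, hG.push_id hX]
        rfl
      map_mul' := fun g h => by
        rw [hρ.mul, hG.push_comp (ρ h) (ρ g) hX hX hX p q p q p q (by ring) (by ring) (by ring)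
          (by ring)]
        rfl }
  hom := fun g x => (G.push (ρ g) p q p q).hom x

theorem desc {G : GysinData} (hG : IsGysinTheory G) (hGal : GaloisFormula G) {Γ : Type}
    [Group Γ] [Finite Γ] {X Y : Scheme.{0}} {d : ℕ} (hX : IsArithmetic X d)
    (ξ : X) (hξ : IsGenericPoint ξ Set.univ) {ρ : Γ → (X ⟶ X)} (hρ : IsAction ρ)
    (H : Subgroup Γ) (π : X ⟶ Y) (hπ : IsQuotientModel ρ d ξ H π) (p q : ℤ)
    (hpq : IsFinite π ∨ q = d ∧ (p = 2 * d - 1 ∨ p = 2 * d - 2)) :
    Desc (action hG hX hρ p q) H (G.reg Y p q) := by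
  let _ := Fintype.ofFinite H
  obtain ⟨h1, h2⟩ := push_pull hG hX hπ.arithmetic π ξ hξ hπ.dominant p q
  obtain ⟨h3, h4⟩ := hGal π ξ hX hπ.arithmetic hξ hπ.dominant (fun h : H => ρ h)
    (fun g h hgh => Subtype.ext (hρ.faithful hgh)) (fun h => hπ.invariant h h.2)
    (by rw [hπ.degree, Nat.card_eq_fintype_card]) p q hpq
  rw [hπ.degree] at h1 h2
  refine ⟨G.push π p q p q, G.pull π p q, h1, h2, fun x => ?_, fun x => ?_⟩
  · rw [h3]
    show _ = op (action hG hX hρ p q).a (∑ h : H, MonoidAlgebra.of ℝ Γ h) x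
    rw [map_sum, LinearMap.sum_apply]
    refine Finset.sum_congr rfl fun h _ => ?_
    rw [op_of]
    rfl
  · rw [h4]
    show _ = op (action hG hX hρ p q).b (∑ h : H, MonoidAlgebra.of ℝ Γ h) x
    rw [map_sum, LinearMap.sum_apply]
    refine Finset.sum_congr rfl fun h _ => ?_
    rw [op_of]
    rfl

theorem transfer {G : GysinData} (hG : IsGysinTheory G) (hGal : GaloisFormula G) {Γ ι : Type}
    [Group Γ] [Finite Γ] {X : Scheme.{0}} {d : ℕ} (hX : IsArithmetic X d)
    (ξ : X) (hξ : IsGenericPoint ξ Set.univ) {ρ : Γ → (X ⟶ X)} (hρ : IsAction ρ)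
    (H : ι → Subgroup Γ) (Y : ι → Scheme.{0}) (π : ∀ j, X ⟶ Y j)
    (hπ : ∀ j, IsQuotientModel ρ d ξ (H j) (π j)) (K : Subgroup Γ) {Z : Scheme.{0}} (κ : X ⟶ Z)
    (hκ : IsQuotientModel ρ d ξ K κ) (hdom : Dominates H K) (i : ℕ)
    (hi : i ≤ 1 ∨ ((∀ j, IsFinite (π j)) ∧ IsFinite κ))
    (h0 : i = 0 → IsFlat Z ∧ ∃ (W : Scheme.{0}) (ω : X ⟶ W), IsFlat W ∧
      IsQuotientModel ρ d ξ ⊤ ω)
    (hQ : ∀ j, QuestionAt G.toRegulatorData (Y j) d i) :
    QuestionAt G.toRegulatorData Z d i := by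
  have hmem := nrm_mem H K hdom
  by_cases hi0 : i = 0
  · subst hi0
    obtain ⟨hZ, W, ω, hW, hω⟩ := h0 rfl
    have hQ' : ∀ j, (G.reg (Y j) (2 * d - 1) d).CokernelReal := fun j => by
      simpa [QuestionAt] using hQ j
    show (if (0 : ℕ) = 0 then (G.reg Z (2 * d - 1) d).CokernelReal
      else (G.reg Z (2 * d - 1 - (0 : ℕ)) d).Bijective)
    rw [if_pos rfl]
    have h1 : (G.reg Z (2 * d - 1) d).AlmostOnto :=
      almostOnto_of (action hG hX hρ (2 * d - 1) d) H K hmem (fun j => G.reg (Y j) (2 * d - 1) d)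
        (fun j => desc hG hGal hX ξ hξ hρ (H j) (π j) (hπ j) _ _ (Or.inr ⟨rfl, Or.inl rfl⟩)) _
        (desc hG hGal hX ξ hξ hρ K κ hκ _ _ (Or.inr ⟨rfl, Or.inl rfl⟩))
        (fun j => (hQ' j).almostOnto) _
        (desc hG hGal hX ξ hξ hρ ⊤ ω hω _ _ (Or.inr ⟨rfl, Or.inl rfl⟩))
        (hG.productFormula hω.arithmetic hW)
    exact h1.cokernelReal (hG.productFormula hκ.arithmetic hZ)
  · have hQ' : ∀ j, (G.reg (Y j) (2 * d - 1 - i) d).Bijective := fun j => by
      have := hQ j
      rw [QuestionAt, if_neg hi0] at this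
      exact this
    show (if i = 0 then (G.reg Z (2 * d - 1) d).CokernelReal
      else (G.reg Z (2 * d - 1 - i) d).Bijective)
    rw [if_neg hi0]
    have hj : ∀ j, IsFinite (π j) ∨ (d : ℤ) = d ∧
        ((2 * d - 1 - i : ℤ) = 2 * d - 1 ∨ (2 * d - 1 - i : ℤ) = 2 * d - 2) := by
      intro j
      rcases hi with hi | ⟨hi, _⟩
      · refine Or.inr ⟨rfl, Or.inr ?_⟩
        have : i = 1 := by omega
        subst this
        push_cast
        ring
      · exact Or.inl (hi j)
    have hk : IsFinite κ ∨ (d : ℤ) = d ∧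
        ((2 * d - 1 - i : ℤ) = 2 * d - 1 ∨ (2 * d - 1 - i : ℤ) = 2 * d - 2) := by
      rcases hi with hi | ⟨_, hi⟩
      · refine Or.inr ⟨rfl, Or.inr ?_⟩
        have : i = 1 := by omega
        subst this
        push_cast
        ring
      · exact Or.inl hi
    exact bijective_of (action hG hX hρ (2 * d - 1 - i) d) H K hmem
      (fun j => G.reg (Y j) (2 * d - 1 - i) d)
      (fun j => desc hG hGal hX ξ hξ hρ (H j) (π j) (hπ j) _ _ (hj j)) _
      (desc hG hGal hX ξ hξ hρ K κ hκ _ _ hk) hQ'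

end Helper69GA
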